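import Mathlib
import Pool.Agent.H71.Cover

set_option autoImplicit false

namespace Pool.Agent.Results.MP_1000ca_al.UniformCover

/-- There is `F` such that for every prime `p` and every `n ≥ 1` some finite group of order at
most `p ^ F n` contains a copy of every group of order `p ^ n`. -/
theorem result : ∃ F : ℕ → ℕ, ∀ p : ℕ, p.Prime → ∀ n : ℕ, 1 ≤ n →
    ∃ (G : Type) (_ : Group G), Finite G ∧ Nat.card G ≤ p ^ F n ∧
      ∀ (H : Type) [Group H], Nat.card H = p ^ n → ∃ f : H →* G, Function.Injective f :=
  Pool.Agent.H71.Cover.main.imp fun _ h p hp n _ => h p hp n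

end Pool.Agent.Results.MP_1000ca_al.UniformCover
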